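import Pool.Agent.Helper74.RG.Defs

/-!
# Coregularity: the snake lemma, and norm surjectivity
-/

set_option autoImplicit false

namespace Pool.Agent.Helper27.RG

open Pool.Agent.Helper74.RG Module

section snake

variable {s : ℕ} {k : Type} [Field k] {H : Type} [AddCommGroup H] [Module k H]
  {T : Fin s → Module.End k H}

/-- G4: the snake lemma for coregularity. -/
theorem coreg_snake {C H' : Type} [AddCommGroup C] [Module k C] [AddCommGroup H'] [Module k H']
    {TC : Fin s → Module.End k C} {T' : Fin s → Module.End k H'}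
    (hTC : LN TC) (f : H →ₗ[k] C) (g : C →ₗ[k] H')
    (hf : Function.Injective f) (hg : Function.Surjective g)
    (hfg : LinearMap.range f = LinearMap.ker g)
    (ef : ∀ i h, f (T i h) = TC i (f h)) (eg : ∀ i h, g (TC i h) = T' i (g h))
    {j : ℕ} (hH : Coreg T j) (hC : Coreg TC s) : Coreg T' (j + 1) := by
  have hgf : ∀ h, g (f h) = 0 := by
    intro h
    have : f h ∈ LinearMap.range f := ⟨h, rfl⟩
    rw [hfg] at this
    exact this
  have lift : ∀ m : ℕ, m ≤ j → ∀ h' : H', (∀ l : Fin s, (l : ℕ) < m → T' l h' = 0) →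
      ∃ c, g c = h' ∧ ∀ l : Fin s, (l : ℕ) < m → TC l c = 0 := by
    intro m
    induction m with
    | zero =>
      intro _ h' _
      obtain ⟨c, hc⟩ := hg h'
      exact ⟨c, hc, fun l hl => absurd hl (Nat.not_lt_zero _)⟩
    | succ m ih =>
      intro hm h' hh'
      obtain ⟨c, hc, hc0⟩ := ih (by omega) h' (fun l hl => hh' l (by omega))
      by_cases hms : m < s
      · have h1 : TC ⟨m, hms⟩ c ∈ LinearMap.ker g := by
          rw [LinearMap.mem_ker, eg, hc]
          exact hh' ⟨m, hms⟩ (Nat.lt_succ_self m)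
        rw [← hfg] at h1
        obtain ⟨h, hh⟩ := h1
        obtain ⟨h2, h3, h4⟩ := hH ⟨m, hms⟩ (by simp only; omega) h (by
          intro l hl
          apply hf
          rw [ef, hh, hTC.comm, hc0 l hl, map_zero, map_zero])
        refine ⟨c - f h2, by rw [map_sub, hc, hgf, sub_zero], ?_⟩
        intro l hl
        rcases Nat.lt_succ_iff_lt_or_eq.mp hl with hl | hl
        · rw [map_sub, hc0 l hl, ← ef, h3 l hl, map_zero, sub_zero]
        · have : l = ⟨m, hms⟩ := Fin.ext hl
          subst this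
          rw [map_sub, ← hh, ← ef, h4, sub_self]
      · refine ⟨c, hc, ?_⟩
        intro l hl
        have := l.2
        exact hc0 l (by omega)
  intro i hi h hh
  obtain ⟨c, hc, hc0⟩ := lift i (by omega) h (fun l hl => hh l hl)
  obtain ⟨c1, h1, h2⟩ := hC i i.2 c (fun l hl => hc0 l hl)
  refine ⟨g c1, ?_, ?_⟩
  · intro l hl
    rw [← eg, h1 l hl, map_zero]
  · rw [← eg, h2, hc]

end snake

section cg

variable {R M : Type*} [CommRing R] [AddCommGroup M] [Module R M]

/-- The kernel of a scalar. -/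
def kr (a : R) : Submodule R M where
  carrier := {x | a • x = 0}
  add_mem' := by
    intro x y hx hy
    change a • (x + y) = 0
    rw [smul_add, show a • x = 0 from hx, show a • y = 0 from hy, add_zero]
  zero_mem' := smul_zero a
  smul_mem' := by
    intro c x hx
    change a • (c • x) = 0
    rw [smul_comm, show a • x = 0 from hx, smul_zero]

lemma mem_kr {a : R} {x : M} : x ∈ (kr a : Submodule R M) ↔ a • x = 0 := Iff.rfl

/-- The multiples. -/
def mul (a : R) (W : Submodule R M) : Submodule R M where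
  carrier := {x | ∃ w ∈ W, a • w = x}
  add_mem' := by
    rintro _ _ ⟨x, hx, rfl⟩ ⟨y, hy, rfl⟩
    exact ⟨x + y, W.add_mem hx hy, smul_add _ _ _⟩
  zero_mem' := ⟨0, W.zero_mem, smul_zero a⟩
  smul_mem' := by
    rintro c _ ⟨x, hx, rfl⟩
    exact ⟨c • x, W.smul_mem c hx, smul_comm _ _ _⟩

lemma mem_mul {a : R} {W : Submodule R M} {x : M} : x ∈ mul a W ↔ ∃ w ∈ W, a • w = x := Iff.rfl

/-- Coregular sequences. -/
def Cg : List R → Submodule R M → Prop
  | [], _ => True
  | a :: l, W => (∀ w ∈ W, ∃ w' ∈ W, a • w' = w) ∧ Cg l (W ⊓ kr a)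

lemma solve : ∀ (l : List R) (W : Submodule R M), Cg l W → ∀ z : M, (∀ b ∈ l, b • z ∈ W) →
    ∃ c ∈ W, ∀ b ∈ l, b • c = b • z := by
  intro l
  induction l with
  | nil => intro W _ z _; exact ⟨0, W.zero_mem, fun b hb => absurd hb List.not_mem_nil⟩
  | cons b l ih =>
    rintro W ⟨hb, hl⟩ z hz
    obtain ⟨c1, hc1, hc2⟩ := hb _ (hz b List.mem_cons_self)
    obtain ⟨c2, hc3, hc4⟩ := ih (W ⊓ kr b) hl (z - c1) (by
      intro a ha
      refine ⟨?_, ?_⟩
      · rw [smul_sub]
        exact W.sub_mem (hz a (List.mem_cons_of_mem _ ha)) (W.smul_mem a hc1)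
      · rw [SetLike.mem_coe, mem_kr, smul_comm, smul_sub, hc2, sub_self, smul_zero])
    refine ⟨c1 + c2, W.add_mem hc1 hc3.1, ?_⟩
    intro a ha
    rcases List.mem_cons.mp ha with rfl | ha
    · rw [smul_add, hc2, show a • c2 = 0 from hc3.2, add_zero]
    · rw [smul_add, hc4 a ha, smul_sub, add_sub_cancel]

/-- Extensions. -/
lemma ext (a : R) : ∀ (l : List R) (W : Submodule R M), Cg l (W ⊓ kr a) → Cg l (mul a W) →
    Cg l W := by
  intro l
  induction l with
  | nil => intro W _ _; trivial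
  | cons c l ih =>
    rintro W ⟨h1, h2⟩ ⟨h3, h4⟩
    refine ⟨?_, ?_⟩
    · intro w hw
      obtain ⟨_, ⟨w1, hw1, rfl⟩, hw2⟩ := h3 (a • w) ⟨w, hw, rfl⟩
      obtain ⟨w3, hw3, hw4⟩ := h1 (w - c • w1) ⟨W.sub_mem hw (W.smul_mem c hw1), by
        rw [SetLike.mem_coe, mem_kr, smul_sub, smul_comm a c, hw2, sub_self]⟩
      exact ⟨w1 + w3, W.add_mem hw1 hw3.1, by rw [smul_add, hw4, add_sub_cancel]⟩
    · apply ih
      · rw [inf_right_comm]
        exact h2
      · have : mul a (W ⊓ kr c) = mul a W ⊓ kr c := by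
          apply le_antisymm
          · rintro _ ⟨w, hw, rfl⟩
            refine ⟨⟨w, hw.1, rfl⟩, ?_⟩
            rw [SetLike.mem_coe, mem_kr, smul_comm, show c • w = 0 from hw.2, smul_zero]
          · rintro _ ⟨⟨w, hw, rfl⟩, hw2⟩
            have hw2' : c • a • w = 0 := hw2
            obtain ⟨w3, hw3, hw4⟩ := h1 (c • w) ⟨W.smul_mem c hw, by
              rw [SetLike.mem_coe, mem_kr, smul_comm, hw2']⟩
            refine ⟨w - w3, ⟨W.sub_mem hw hw3.1, ?_⟩, ?_⟩
            · rw [SetLike.mem_coe, mem_kr, smul_sub, hw4, sub_self]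
            · rw [smul_sub, show a • w3 = 0 from hw3.2, sub_zero]
        rw [this]
        exact h4

/-- Kernels of powers. -/
lemma ker_pow (a : R) (l : List R) (W : Submodule R M) (ha : ∀ w ∈ W, ∃ w' ∈ W, a • w' = w)
    (hl : Cg l (W ⊓ kr a)) : ∀ r : ℕ, Cg l (W ⊓ kr (a ^ (r + 1))) := by
  intro r
  induction r with
  | zero => rw [zero_add, pow_one]; exact hl
  | succ r ih =>
    apply ext a
    · have : W ⊓ kr (a ^ (r + 1 + 1)) ⊓ kr a = W ⊓ kr a := by
        apply le_antisymm
        · rintro x ⟨⟨h1, _⟩, h2⟩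
          exact ⟨h1, h2⟩
        · rintro x ⟨h1, h2⟩
          refine ⟨⟨h1, ?_⟩, h2⟩
          rw [SetLike.mem_coe, mem_kr, pow_succ, mul_smul, show a • x = 0 from h2, smul_zero]
      rw [this]
      exact hl
    · have : mul a (W ⊓ kr (a ^ (r + 1 + 1))) = W ⊓ kr (a ^ (r + 1)) := by
        apply le_antisymm
        · rintro _ ⟨w, ⟨h1, h2⟩, rfl⟩
          refine ⟨W.smul_mem a h1, ?_⟩
          rw [SetLike.mem_coe, mem_kr, ← mul_smul, ← pow_succ]
          exact h2
        · rintro x ⟨h1, h2⟩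
          obtain ⟨w, hw, rfl⟩ := ha x h1
          refine ⟨w, ⟨hw, ?_⟩, rfl⟩
          rw [SetLike.mem_coe, mem_kr, pow_succ, mul_smul]
          exact h2
      rw [this]
      exact ih

/-- Powers of a coregular sequence. -/
lemma pows (r : ℕ) : ∀ (l : List R) (W : Submodule R M), Cg l W →
    Cg (l.map (fun a => a ^ (r + 1))) W := by
  intro l
  induction l with
  | nil => intro W _; trivial
  | cons a l ih =>
    rintro W ⟨h1, h2⟩
    refine ⟨?_, ih _ (ker_pow a l W h1 h2 r)⟩
    have : ∀ m : ℕ, ∀ w ∈ W, ∃ w' ∈ W, a ^ m • w' = w := by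
      intro m
      induction m with
      | zero => intro w hw; exact ⟨w, hw, by rw [pow_zero, one_smul]⟩
      | succ m ihm =>
        intro w hw
        obtain ⟨w1, hw1, rfl⟩ := ihm w hw
        obtain ⟨w2, hw2, rfl⟩ := h1 w1 hw1
        exact ⟨w2, hw2, by rw [pow_succ, mul_smul]⟩
    exact this (r + 1)

/-- Norm surjectivity. -/
lemma norm (q : ℕ) : ∀ (l : List R) (W : Submodule R M), Cg l W →
    ∀ y ∈ W, (∀ a ∈ l, a • y = 0) →
    ∃ z ∈ W, (∀ a ∈ l, a ^ (q + 1) • z = 0) ∧ (l.map (fun a => a ^ q)).prod • z = y := by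
  intro l
  induction l with
  | nil =>
    intro W _ y hy _
    exact ⟨y, hy, fun a ha => absurd ha List.not_mem_nil, by rw [List.map_nil, List.prod_nil,
      one_smul]⟩
  | cons a l ih =>
    rintro W ⟨h1, h2⟩ y hy hy0
    obtain ⟨z, hz, hz1, hz2⟩ := ih (W ⊓ kr a) h2 y ⟨hy, hy0 a List.mem_cons_self⟩
      (fun b hb => hy0 b (List.mem_cons_of_mem _ hb))
    -- `a` is onto on the common kernel of the powers
    have onto : ∀ x ∈ W, (∀ b ∈ l, b ^ (q + 1) • x = 0) →
        ∃ x' ∈ W, (∀ b ∈ l, b ^ (q + 1) • x' = 0) ∧ a • x' = x := by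
      intro x hx hx0
      obtain ⟨z1, hz1, hz2⟩ := h1 x hx
      obtain ⟨c, hc, hc1⟩ := solve (l.map (fun a => a ^ (q + 1))) (W ⊓ kr a) (pows q l _ h2) z1 (by
        intro b' hb'
        obtain ⟨b, hb, rfl⟩ := List.mem_map.mp hb'
        refine ⟨W.smul_mem _ hz1, ?_⟩
        rw [SetLike.mem_coe, mem_kr, smul_comm, hz2, hx0 b hb])
      refine ⟨z1 - c, W.sub_mem hz1 hc.1, ?_, ?_⟩
      · intro b hb
        rw [smul_sub, hc1 _ (List.mem_map.mpr ⟨b, hb, rfl⟩), sub_self]
      · rw [smul_sub, hz2, show a • c = 0 from hc.2, sub_zero]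
    have iter : ∀ m : ℕ, ∃ x ∈ W, (∀ b ∈ l, b ^ (q + 1) • x = 0) ∧ a ^ m • x = z := by
      intro m
      induction m with
      | zero => exact ⟨z, hz.1, hz1, by rw [pow_zero, one_smul]⟩
      | succ m ihm =>
        obtain ⟨x, hx, hx0, hxm⟩ := ihm
        obtain ⟨x', hx', hx0', rfl⟩ := onto x hx hx0
        exact ⟨x', hx', hx0', by rw [pow_succ, mul_smul]; exact hxm⟩
    obtain ⟨x, hx, hx0, hxq⟩ := iter q
    refine ⟨x, hx, ?_, ?_⟩
    · intro b hb
      rcases List.mem_cons.mp hb with rfl | hb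
      · rw [pow_succ', mul_smul, hxq]
        exact hz.2
      · exact hx0 b hb
    · rw [List.map_cons, List.prod_cons, mul_comm, mul_smul, hxq, hz2]

end cg

section NS

variable {s : ℕ} {k : Type} [Field k] {H : Type} [AddCommGroup H] [Module k H]
  {T : Fin s → Module.End k H}

/-- G5: coregularity implies norm surjectivity. -/
theorem NS_of_coreg (hT : LN T) (hC : Coreg T s) : NS T := by
  let _ : Module (MvPowerSeries (Fin s) k) H := Module.compHom H hT.actHom
  have hsm : ∀ (f : MvPowerSeries (Fin s) k) (h : H), f • h = hT.actHom f h := fun f h => rfl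
  have hX : ∀ i, hT.actHom (MvPowerSeries.X i) = T i := fun i => LinearMap.ext (hT.act_X i)
  have hXs : ∀ i (h : H), (MvPowerSeries.X i : MvPowerSeries (Fin s) k) • h = T i h := fun i h =>
    hT.act_X i h
  -- the common kernel of the first operators
  let W : ℕ → Submodule (MvPowerSeries (Fin s) k) H := fun j =>
    { carrier := {h | ∀ l : Fin s, (l : ℕ) < j →
        (MvPowerSeries.X l : MvPowerSeries (Fin s) k) • h = 0}
      add_mem' := by
        intro x y hx hy l hl
        rw [smul_add, hx l hl, hy l hl, add_zero]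
      zero_mem' := fun l _ => smul_zero _
      smul_mem' := by
        intro c x hx l hl
        rw [smul_comm, hx l hl, smul_zero] }
  have hW : ∀ n j : ℕ, j + n = s →
      Cg (((List.finRange s).drop j).map
        (fun i => (MvPowerSeries.X i : MvPowerSeries (Fin s) k))) (W j) := by
    intro n
    induction n with
    | zero =>
      intro j hj
      rw [List.drop_eq_nil_of_le (by rw [List.length_finRange]; omega)]
      trivial
    | succ n ih =>
      intro j hj
      have hjs : j < s := by omega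
      rw [List.drop_eq_getElem_cons (by rw [List.length_finRange]; exact hjs), List.map_cons]
      have hget : (List.finRange s)[j]'(by rw [List.length_finRange]; exact hjs) = ⟨j, hjs⟩ := by
        simp
      rw [hget]
      refine ⟨?_, ?_⟩
      · intro w hw
        obtain ⟨h', h1, h2⟩ := hC ⟨j, hjs⟩ hjs w (fun l hl => by
          rw [← hXs]
          exact hw l hl)
        exact ⟨h', fun l hl => by rw [hXs]; exact h1 l hl, by rw [hXs]; exact h2⟩
      · have : W j ⊓ kr (MvPowerSeries.X ⟨j, hjs⟩) = W (j + 1) := by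
          apply le_antisymm
          · rintro x ⟨h1, h2⟩ l hl
            rcases Nat.lt_succ_iff_lt_or_eq.mp hl with hl | hl
            · exact h1 l hl
            · have : l = ⟨j, hjs⟩ := Fin.ext hl
              subst this
              exact h2
          · intro x hx
            exact ⟨fun l hl => hx l (by omega), hx ⟨j, hjs⟩ (Nat.lt_succ_self j)⟩
        rw [this]
        exact ih (j + 1) (by omega)
  intro q y hy
  have h0 := hW s 0 (zero_add s)
  rw [List.drop_zero] at h0
  obtain ⟨z, _, hz1, hz2⟩ := norm q _ _ h0 y (fun l hl => absurd hl (Nat.not_lt_zero _)) (by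
    intro a ha
    obtain ⟨i, _, rfl⟩ := List.mem_map.mp ha
    rw [hXs]
    exact mem_inv.mp hy i)
  refine ⟨z, ?_, ?_⟩
  · rw [mem_box]
    intro i
    have := hz1 _ (List.mem_map.mpr ⟨i, List.mem_finRange i, rfl⟩)
    rw [hsm, map_pow, hX] at this
    exact this
  · rw [List.map_map, hsm, map_list_prod, List.map_map] at hz2
    rw [mon, List.ofFn_eq_map, ← hz2]
    congr 2
    apply List.map_congr_left
    intro i _
    simp only [Function.comp_apply, map_pow, hX]

end NS

end Pool.Agent.Helper27.RG
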